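import Pool.Agent.H334R5.Hey.Defs

/-!
# A characterisation of primitivity by finite algebras
-/

set_option autoImplicit false

namespace Pool.Agent.H334R5.Hey

/-- Homomorphisms. -/
structure Hom (B A : Alg) (f : B.carrier → A.carrier) : Prop where
  meet : ∀ x y, f (B.meet x y) = A.meet (f x) (f y)
  join : ∀ x y, f (B.join x y) = A.join (f x) (f y)
  imp : ∀ x y, f (B.imp x y) = A.imp (f x) (f y)
  bot : f B.bot = A.bot
  top : f B.top = A.top

theorem Hom.eval {B A : Alg} {f : B.carrier → A.carrier} (h : Hom B A f) (v : ℕ → B.carrier)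
    (t : Term) : f (B.eval v t) = A.eval (fun n => f (v n)) t := by
  induction t with
  | var n => rfl
  | bot => exact h.bot
  | top => exact h.top
  | meet s t ihs iht => simp only [Alg.eval, h.meet, ihs, iht]
  | join s t ihs iht => simp only [Alg.eval, h.join, ihs, iht]
  | imp s t ihs iht => simp only [Alg.eval, h.imp, ihs, iht]

/-- The variables of a term are below `n`. -/
def Term.Below (n : ℕ) : Term → Prop
  | .var m => m < n
  | .bot => True
  | .top => True
  | .meet s t => s.Below n ∧ t.Below n
  | .join s t => s.Below n ∧ t.Below n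
  | .imp s t => s.Below n ∧ t.Below n

theorem Term.Below.mono {n m : ℕ} (h : n ≤ m) : ∀ {t : Term}, t.Below n → t.Below m
  | .var k, hk => lt_of_lt_of_le hk h
  | .bot, _ => trivial
  | .top, _ => trivial
  | .meet _ _, hk => ⟨Term.Below.mono h hk.1, Term.Below.mono h hk.2⟩
  | .join _ _, hk => ⟨Term.Below.mono h hk.1, Term.Below.mono h hk.2⟩
  | .imp _ _, hk => ⟨Term.Below.mono h hk.1, Term.Below.mono h hk.2⟩

theorem Term.exists_below : ∀ t : Term, ∃ n, t.Below n
  | .var k => ⟨k + 1, Nat.lt_succ_self k⟩
  | .bot => ⟨0, trivial⟩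
  | .top => ⟨0, trivial⟩
  | .meet s t => by
    obtain ⟨a, ha⟩ := Term.exists_below s
    obtain ⟨b, hb⟩ := Term.exists_below t
    exact ⟨max a b, ha.mono (le_max_left _ _), hb.mono (le_max_right _ _)⟩
  | .join s t => by
    obtain ⟨a, ha⟩ := Term.exists_below s
    obtain ⟨b, hb⟩ := Term.exists_below t
    exact ⟨max a b, ha.mono (le_max_left _ _), hb.mono (le_max_right _ _)⟩
  | .imp s t => by
    obtain ⟨a, ha⟩ := Term.exists_below s
    obtain ⟨b, hb⟩ := Term.exists_below t
    exact ⟨max a b, ha.mono (le_max_left _ _), hb.mono (le_max_right _ _)⟩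

theorem eval_congr (A : Alg) {n : ℕ} {v w : ℕ → A.carrier} (h : ∀ i < n, v i = w i) :
    ∀ {t : Term}, t.Below n → A.eval v t = A.eval w t
  | .var k, hk => h k hk
  | .bot, _ => rfl
  | .top, _ => rfl
  | .meet _ _, hk => by simp only [Alg.eval, eval_congr A h hk.1, eval_congr A h hk.2]
  | .join _ _, hk => by simp only [Alg.eval, eval_congr A h hk.1, eval_congr A h hk.2]
  | .imp _ _, hk => by simp only [Alg.eval, eval_congr A h hk.1, eval_congr A h hk.2]

/-- Substitution. -/
def Term.subst (σ : ℕ → Term) : Term → Term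
  | .var n => σ n
  | .bot => .bot
  | .top => .top
  | .meet s t => .meet (s.subst σ) (t.subst σ)
  | .join s t => .join (s.subst σ) (t.subst σ)
  | .imp s t => .imp (s.subst σ) (t.subst σ)

theorem eval_subst (A : Alg) (v : ℕ → A.carrier) (σ : ℕ → Term) (t : Term) :
    A.eval v (t.subst σ) = A.eval (fun n => A.eval v (σ n)) t := by
  induction t with
  | var n => rfl
  | bot => rfl
  | top => rfl
  | meet s t ihs iht => simp only [Alg.eval, Term.subst, ihs, iht]
  | join s t ihs iht => simp only [Alg.eval, Term.subst, ihs, iht]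
  | imp s t ihs iht => simp only [Alg.eval, Term.subst, ihs, iht]

/-- The subalgebra on a closed subset. -/
def Alg.sub (A : Alg) (C : Set A.carrier) (hm : ∀ x ∈ C, ∀ y ∈ C, A.meet x y ∈ C)
    (hj : ∀ x ∈ C, ∀ y ∈ C, A.join x y ∈ C) (hi : ∀ x ∈ C, ∀ y ∈ C, A.imp x y ∈ C)
    (hb : A.bot ∈ C) (ht : A.top ∈ C) : Alg where
  carrier := C
  meet x y := ⟨A.meet x y, hm x x.2 y y.2⟩
  join x y := ⟨A.join x y, hj x x.2 y y.2⟩
  imp x y := ⟨A.imp x y, hi x x.2 y y.2⟩
  bot := ⟨A.bot, hb⟩
  top := ⟨A.top, ht⟩

theorem hom_injective_modelsQ {B A : Alg} {f : B.carrier → A.carrier} (h : Hom B A f)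
    (hf : Function.Injective f) {q : QuasiIdentity} (hq : A.ModelsQ q) : B.ModelsQ q := by
  intro v hv
  apply hf
  rw [h.eval, h.eval]
  apply hq
  intro e he
  rw [← h.eval, ← h.eval, hv e he]

theorem hom_surjective_models {B A : Alg} {f : B.carrier → A.carrier} (h : Hom B A f)
    (hf : Function.Surjective f) {e : Term × Term} (he : B.Models e) : A.Models e := by
  intro v
  choose g hg using hf
  have hv : v = fun n => f (g (v n)) := funext fun n => (hg (v n)).symm
  rw [hv, ← h.eval, ← h.eval, he]

/-- If homomorphisms into `A` separate the points of `B` then `B` is in the quasivariety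
generated by `A`. -/
theorem mem_Q_of_separate {B A : Alg} (h : ∀ x y : B.carrier, x ≠ y →
    ∃ f : B.carrier → A.carrier, Hom B A f ∧ f x ≠ f y) : B ∈ A.Q := by
  intro q hq v hv
  by_contra hcon
  obtain ⟨f, hf, hne⟩ := h _ _ hcon
  apply hne
  rw [hf.eval, hf.eval]
  apply hq
  intro e he
  rw [← hf.eval, ← hf.eval, hv e he]

/-- The condition to be checked. -/
def Cond (A : Alg) (N : ℕ) : Prop :=
  ∀ B : Alg, Finite B.carrier → Nat.card B.carrier ≤ N →
    (∀ x y : B.carrier, x ≠ y → ∃ f : B.carrier → A.carrier, Hom B A f ∧ f x ≠ f y) →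
    ∀ h : B.carrier → A.carrier, Hom B A h → ∀ x y : B.carrier, h x ≠ h y →
      ∃ g : A.carrier → B.carrier, Hom B B (fun z => g (h z)) ∧ g (h x) ≠ g (h y)

/-- The image of a homomorphism, as an algebra. -/
def image {B A : Alg} {h : B.carrier → A.carrier} (hh : Hom B A h) : Alg :=
  A.sub (Set.range h)
    (by rintro _ ⟨x, rfl⟩ _ ⟨y, rfl⟩; exact ⟨B.meet x y, hh.meet x y⟩)
    (by rintro _ ⟨x, rfl⟩ _ ⟨y, rfl⟩; exact ⟨B.join x y, hh.join x y⟩)
    (by rintro _ ⟨x, rfl⟩ _ ⟨y, rfl⟩; exact ⟨B.imp x y, hh.imp x y⟩)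
    ⟨B.bot, hh.bot⟩ ⟨B.top, hh.top⟩

/-- Primitivity implies the condition. -/
theorem cond_of_primitive {A : Alg} [Finite A.carrier] (e : A.carrier → ℕ)
    (he : Function.Injective e) (hP : Primitive A.Q) (N : ℕ) : Cond A N := by
  intro B hfin _ hsep h hh x y hxy
  haveI := hfin
  -- the subquasivariety generated by `B`
  have hBA : B ∈ A.Q := mem_Q_of_separate hsep
  obtain ⟨V, ⟨T, hT⟩, hV⟩ := hP B.Q (fun C hC q hq => hC q (hBA q hq)) ⟨{q | B.ModelsQ q}, rfl⟩
  -- the image is in it
  have hBB : B ∈ B.Q := fun q hq => hq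
  have hBV : B ∈ V := (hV ▸ hBB : B ∈ A.Q ∩ V).2
  have hCV : image hh ∈ V := by
    rw [hT] at hBV ⊢
    intro eq heq
    refine hom_surjective_models (B := B) (f := fun z => (⟨h z, z, rfl⟩ : Set.range h)) ?_ ?_
      (hBV eq heq)
    · exact ⟨fun x y => Subtype.ext (hh.meet x y), fun x y => Subtype.ext (hh.join x y),
        fun x y => Subtype.ext (hh.imp x y), Subtype.ext hh.bot, Subtype.ext hh.top⟩
    · rintro ⟨_, z, rfl⟩
      exact ⟨z, rfl⟩
  have hCA : image hh ∈ A.Q := fun q hq =>
    hom_injective_modelsQ (B := image hh) (A := A) (f := fun z => z.1)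
      ⟨fun _ _ => rfl, fun _ _ => rfl, fun _ _ => rfl, rfl, rfl⟩ Subtype.val_injective hq
  have hCB : image hh ∈ B.Q := by
    rw [hV]
    exact ⟨hCA, hCV⟩
  -- the diagram of the image
  obtain ⟨L, hL⟩ : ∃ L : List B.carrier, ∀ z, z ∈ L := by
    obtain ⟨n, ⟨φ⟩⟩ := Finite.exists_equiv_fin B.carrier
    refine ⟨(List.finRange n).map φ.symm, fun z => ?_⟩
    rw [List.mem_map]
    exact ⟨φ z, List.mem_finRange _, by simp⟩
  let X : B.carrier → Term := fun z => Term.var (e (h z))
  let q : QuasiIdentity :=
    { premises := (Term.bot, X B.bot) :: (Term.top, X B.top) ::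
        (L.flatMap (fun u => L.flatMap (fun w =>
          [(Term.meet (X u) (X w), X (B.meet u w)), (Term.join (X u) (X w), X (B.join u w)),
            (Term.imp (X u) (X w), X (B.imp u w))])))
      conclusion := (X x, X y) }
  -- fails in the image
  have hq : ¬ (image hh).ModelsQ q := by
    intro hq
    classical
    let v : ℕ → (image hh).carrier := fun n =>
      if hn : ∃ z, e (h z) = n then ⟨h hn.choose, _, rfl⟩ else ⟨h B.bot, _, rfl⟩
    have hv : ∀ z, v (e (h z)) = ⟨h z, z, rfl⟩ := by
      intro z
      have hn : ∃ z', e (h z') = e (h z) := ⟨z, rfl⟩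
      have : v (e (h z)) = ⟨h hn.choose, _, rfl⟩ := dif_pos hn
      rw [this]
      exact Subtype.ext (he hn.choose_spec)
    have h1 := hq v (by
      intro eq heq
      simp only [q, List.mem_cons, List.mem_flatMap, List.not_mem_nil, or_false] at heq
      rcases heq with rfl | rfl | ⟨u, -, w, -, rfl | rfl | rfl⟩
      · simp only [Alg.eval, X, hv]
        exact Subtype.ext hh.bot.symm
      · simp only [Alg.eval, X, hv]
        exact Subtype.ext hh.top.symm
      · simp only [Alg.eval, X, hv]
        exact Subtype.ext (hh.meet u w).symm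
      · simp only [Alg.eval, X, hv]
        exact Subtype.ext (hh.join u w).symm
      · simp only [Alg.eval, X, hv]
        exact Subtype.ext (hh.imp u w).symm)
    simp only [q, Alg.eval, X, hv] at h1
    exact hxy (congrArg Subtype.val h1)
  -- so it fails in `B`
  have hqB : ¬ B.ModelsQ q := fun hc => hq (hCB q hc)
  unfold Alg.ModelsQ at hqB
  push Not at hqB
  obtain ⟨v, hv1, hv2⟩ := hqB
  have hmem : ∀ u w : B.carrier, B.meet (v (e (h u))) (v (e (h w))) = v (e (h (B.meet u w))) ∧
      B.join (v (e (h u))) (v (e (h w))) = v (e (h (B.join u w))) ∧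
      B.imp (v (e (h u))) (v (e (h w))) = v (e (h (B.imp u w))) := by
    intro u w
    have key : ∀ eq : Term × Term, eq ∈ [(Term.meet (X u) (X w), X (B.meet u w)),
        (Term.join (X u) (X w), X (B.join u w)), (Term.imp (X u) (X w), X (B.imp u w))] →
        B.eval v eq.1 = B.eval v eq.2 := by
      intro eq heq
      apply hv1
      simp only [q, List.mem_cons, List.mem_flatMap, List.not_mem_nil, or_false] at heq ⊢
      exact Or.inr (Or.inr ⟨u, hL u, w, hL w, heq⟩)
    exact ⟨key (Term.meet (X u) (X w), X (B.meet u w)) (by simp),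
      key (Term.join (X u) (X w), X (B.join u w)) (by simp),
      key (Term.imp (X u) (X w), X (B.imp u w)) (by simp)⟩
  refine ⟨fun a => v (e a), ⟨fun u w => (hmem u w).1.symm, fun u w => (hmem u w).2.1.symm,
    fun u w => (hmem u w).2.2.symm, ?_, ?_⟩, hv2⟩
  · exact (hv1 (Term.bot, X B.bot) (by simp [q])).symm
  · exact (hv1 (Term.top, X B.top) (by simp [q])).symm

/-! ### The condition implies primitivity -/

/-- The subalgebra of the values of terms. -/
theorem values_closed (F : Alg) (b : ℕ → F.carrier) :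
    let C : Set F.carrier := Set.range (fun t => F.eval b t)
    (∀ x ∈ C, ∀ y ∈ C, F.meet x y ∈ C) ∧ (∀ x ∈ C, ∀ y ∈ C, F.join x y ∈ C) ∧
      (∀ x ∈ C, ∀ y ∈ C, F.imp x y ∈ C) ∧ F.bot ∈ C ∧ F.top ∈ C := by
  refine ⟨?_, ?_, ?_, ⟨Term.bot, rfl⟩, ⟨Term.top, rfl⟩⟩
  · rintro _ ⟨s, rfl⟩ _ ⟨t, rfl⟩; exact ⟨Term.meet s t, rfl⟩
  · rintro _ ⟨s, rfl⟩ _ ⟨t, rfl⟩; exact ⟨Term.join s t, rfl⟩
  · rintro _ ⟨s, rfl⟩ _ ⟨t, rfl⟩; exact ⟨Term.imp s t, rfl⟩

/-- The subalgebra generated by the sequence `b`. -/
def gen (F : Alg) (b : ℕ → F.carrier) : Alg :=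
  F.sub (Set.range (fun t => F.eval b t)) (values_closed F b).1 (values_closed F b).2.1
    (values_closed F b).2.2.1 (values_closed F b).2.2.2.1 (values_closed F b).2.2.2.2

theorem gen_incl (F : Alg) (b : ℕ → F.carrier) :
    Hom (gen F b) F (fun z => z.1) :=
  ⟨fun _ _ => rfl, fun _ _ => rfl, fun _ _ => rfl, rfl, rfl⟩

/-- the generators -/
def gens (F : Alg) (b : ℕ → F.carrier) (n : ℕ) : (gen F b).carrier := ⟨b n, Term.var n, rfl⟩

theorem eval_gens (F : Alg) (b : ℕ → F.carrier) (t : Term) :
    ((gen F b).eval (gens F b) t).1 = F.eval b t := by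
  have := (gen_incl F b).eval (gens F b) t
  exact this

/-- A subalgebra of `F ∈ Q(A)` generated by `k` elements has at most `|A|^(|A|^k)` elements. -/
theorem gen_card {A F : Alg} [Finite A.carrier] (hF : F ∈ A.Q) (b : ℕ → F.carrier) (k : ℕ)
    (hk : 0 < k) (hb : ∀ n, k ≤ n → b n = b 0) :
    Finite (gen F b).carrier ∧
      Nat.card (gen F b).carrier ≤ Nat.card A.carrier ^ (Nat.card A.carrier ^ k) := by
  -- reduction to the variables below `k`
  let σ : ℕ → Term := fun n => if n < k then Term.var n else Term.var 0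
  have hσ : ∀ t, F.eval b (t.subst σ) = F.eval b t := by
    intro t
    rw [eval_subst]
    congr 1
    funext n
    by_cases hn : n < k
    · simp [σ, hn, Alg.eval]
    · simp only [σ, hn, if_false, Alg.eval]
      exact (hb n (by omega)).symm
  -- term functions
  let Φ : Term → ((Fin k → A.carrier) → A.carrier) := fun t v =>
    A.eval (fun n => if hn : n < k then v ⟨n, hn⟩ else v ⟨0, hk⟩) t
  have hΦ : ∀ s t, Φ s = Φ t → F.eval b s = F.eval b t := by
    intro s t hst
    have h1 : A.Models (s.subst σ, t.subst σ) := by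
      intro v
      simp only
      rw [eval_subst, eval_subst]
      have h2 := congrFun hst (fun i : Fin k => v i)
      simp only [Φ] at h2
      have h3 : (fun n => A.eval v (σ n)) = fun n => if hn : n < k then v n else v 0 := by
        funext n
        by_cases hn : n < k
        · simp [σ, hn, Alg.eval]
        · simp [σ, hn, Alg.eval]
      rw [h3]
      exact h2
    have h2 : A.ModelsQ ⟨[], (s.subst σ, t.subst σ)⟩ := fun v _ => h1 v
    have h3 := hF _ h2 b (by simp)
    simp only at h3
    rw [hσ, hσ] at h3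
    exact h3
  haveI : Finite ((Fin k → A.carrier) → A.carrier) := inferInstance
  -- injection
  choose rep hrep using fun z : (gen F b).carrier => z.2
  have hinj : Function.Injective (fun z : (gen F b).carrier => Φ (rep z)) := by
    intro z w hzw
    have := hΦ _ _ hzw
    have h1 := hrep z
    have h2 := hrep w
    simp only at h1 h2
    exact Subtype.ext (by rw [← h1, ← h2, this])
  refine ⟨Finite.of_injective _ hinj, (Nat.card_le_card_of_injective _ hinj).trans ?_⟩
  rw [Nat.card_fun, Nat.card_fun, Nat.card_fin]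

/-- If a finite algebra is in the quasivariety generated by `A`, then homomorphisms into `A`
separate its points. -/
theorem separate_of_mem_Q {A B : Alg} [Finite B.carrier] (hB : B ∈ A.Q) (x y : B.carrier)
    (hxy : x ≠ y) : ∃ f : B.carrier → A.carrier, Hom B A f ∧ f x ≠ f y := by
  obtain ⟨n, ⟨φ⟩⟩ := Finite.exists_equiv_fin B.carrier
  obtain ⟨L, hL⟩ : ∃ L : List B.carrier, ∀ z, z ∈ L := by
    refine ⟨(List.finRange n).map φ.symm, fun z => ?_⟩
    rw [List.mem_map]
    exact ⟨φ z, List.mem_finRange _, by simp⟩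
  let X : B.carrier → Term := fun z => Term.var (φ z)
  let q : QuasiIdentity :=
    { premises := (Term.bot, X B.bot) :: (Term.top, X B.top) ::
        (L.flatMap (fun u => L.flatMap (fun w =>
          [(Term.meet (X u) (X w), X (B.meet u w)), (Term.join (X u) (X w), X (B.join u w)),
            (Term.imp (X u) (X w), X (B.imp u w))])))
      conclusion := (X x, X y) }
  have hq : ¬ B.ModelsQ q := by
    intro hq
    let v : ℕ → B.carrier := fun k => if hk : k < n then φ.symm ⟨k, hk⟩ else B.bot
    have hv : ∀ z, v (φ z) = z := by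
      intro z
      simp [v]
    have h1 := hq v (by
      intro eq heq
      simp only [q, List.mem_cons, List.mem_flatMap, List.not_mem_nil, or_false] at heq
      rcases heq with rfl | rfl | ⟨u, -, w, -, rfl | rfl | rfl⟩ <;>
        simp only [Alg.eval, X, hv])
    simp only [q, Alg.eval, X, hv] at h1
    exact hxy h1
  have hqA : ¬ A.ModelsQ q := fun hc => hq (hB q hc)
  unfold Alg.ModelsQ at hqA
  push Not at hqA
  obtain ⟨v, hv1, hv2⟩ := hqA
  have hmem : ∀ u w : B.carrier, A.meet (v (φ u)) (v (φ w)) = v (φ (B.meet u w)) ∧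
      A.join (v (φ u)) (v (φ w)) = v (φ (B.join u w)) ∧
      A.imp (v (φ u)) (v (φ w)) = v (φ (B.imp u w)) := by
    intro u w
    have key : ∀ eq : Term × Term, eq ∈ [(Term.meet (X u) (X w), X (B.meet u w)),
        (Term.join (X u) (X w), X (B.join u w)), (Term.imp (X u) (X w), X (B.imp u w))] →
        A.eval v eq.1 = A.eval v eq.2 := by
      intro eq heq
      apply hv1
      simp only [q, List.mem_cons, List.mem_flatMap, List.not_mem_nil, or_false] at heq ⊢
      exact Or.inr (Or.inr ⟨u, hL u, w, hL w, heq⟩)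
    exact ⟨key (Term.meet (X u) (X w), X (B.meet u w)) (by simp),
      key (Term.join (X u) (X w), X (B.join u w)) (by simp),
      key (Term.imp (X u) (X w), X (B.imp u w)) (by simp)⟩
  refine ⟨fun a => v (φ a), ⟨fun u w => (hmem u w).1.symm, fun u w => (hmem u w).2.1.symm,
    fun u w => (hmem u w).2.2.symm, ?_, ?_⟩, hv2⟩
  · exact (hv1 (Term.bot, X B.bot) (by simp [q])).symm
  · exact (hv1 (Term.top, X B.top) (by simp [q])).symm

/-- Homomorphisms from the subalgebra generated by a sequence. -/
theorem exists_lift {P A : Alg} {c : ℕ → P.carrier} {u : ℕ → A.carrier}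
    (h : ∀ s t : Term, P.eval c s = P.eval c t → A.eval u s = A.eval u t) :
    ∃ f : (gen P c).carrier → A.carrier, Hom (gen P c) A f ∧
      ∀ (t : Term) (z : (gen P c).carrier), z.1 = P.eval c t → f z = A.eval u t := by
  choose rep hrep using fun z : (gen P c).carrier => z.2
  have key : ∀ (t : Term) (z : (gen P c).carrier), z.1 = P.eval c t →
      A.eval u (rep z) = A.eval u t := by
    intro t z hz
    apply h
    have := hrep z
    simp only at this
    rw [this, hz]
  refine ⟨fun z => A.eval u (rep z), ⟨?_, ?_, ?_, ?_, ?_⟩, key⟩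
  · intro x y
    refine key (Term.meet (rep x) (rep y)) _ ?_
    have h1 := hrep x
    have h2 := hrep y
    simp only at h1 h2
    show P.meet x.1 y.1 = P.meet _ _
    rw [h1, h2]
  · intro x y
    refine key (Term.join (rep x) (rep y)) _ ?_
    have h1 := hrep x
    have h2 := hrep y
    simp only at h1 h2
    show P.join x.1 y.1 = P.join _ _
    rw [h1, h2]
  · intro x y
    refine key (Term.imp (rep x) (rep y)) _ ?_
    have h1 := hrep x
    have h2 := hrep y
    simp only at h1 h2
    show P.imp x.1 y.1 = P.imp _ _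
    rw [h1, h2]
  · exact key Term.bot _ rfl
  · exact key Term.top _ rfl

/-- The product of a family of algebras. -/
def prod {I : Type} (M : I → Alg) : Alg where
  carrier := ∀ i, (M i).carrier
  meet x y := fun i => (M i).meet (x i) (y i)
  join x y := fun i => (M i).join (x i) (y i)
  imp x y := fun i => (M i).imp (x i) (y i)
  bot := fun i => (M i).bot
  top := fun i => (M i).top

theorem eval_prod {I : Type} (M : I → Alg) (v : ℕ → (prod M).carrier) (t : Term) (i : I) :
    (prod M).eval v t i = (M i).eval (fun n => v n i) t :=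
  Hom.eval (B := prod M) (A := M i) (f := fun x => x i)
    ⟨fun _ _ => rfl, fun _ _ => rfl, fun _ _ => rfl, rfl, rfl⟩ v t

theorem prod_modelsQ {I : Type} {M : I → Alg} {q : QuasiIdentity} (h : ∀ i, (M i).ModelsQ q) :
    (prod M).ModelsQ q := by
  intro v hv
  funext i
  rw [eval_prod, eval_prod]
  apply h i
  intro e he
  rw [← eval_prod, ← eval_prod, hv e he]

/-- The condition implies primitivity. -/
theorem primitive_of_cond {A : Alg} [Finite A.carrier] {N : ℕ}
    (hN : Nat.card A.carrier ^ (Nat.card A.carrier ^ Nat.card A.carrier) ≤ N)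
    (hC : Cond A N) : Primitive A.Q := by
  rintro K' hK' ⟨T, rfl⟩
  set K' : Set Alg := {B | ∀ q ∈ T, B.ModelsQ q} with hK'def
  refine ⟨{B | ∀ e ∈ {e : Term × Term | ∀ M ∈ K', M.Models e}, B.Models e}, ⟨_, rfl⟩, ?_⟩
  ext D
  constructor
  · intro hD
    exact ⟨hK' hD, fun e he => he D hD⟩
  · rintro ⟨hDA, hDV⟩
    simp only [Set.mem_ofPred_eq] at hDV
    intro q hqT v hv
    by_contra hne
    -- the number of variables
    obtain ⟨n0, hn0⟩ : ∃ n0, (∀ e ∈ q.premises, e.1.Below n0 ∧ e.2.Below n0) ∧
        q.conclusion.1.Below n0 ∧ q.conclusion.2.Below n0 := by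
      have h1 : ∀ L : List (Term × Term), ∃ n, ∀ e ∈ L, e.1.Below n ∧ e.2.Below n := by
        intro L
        induction L with
        | nil => exact ⟨0, by simp⟩
        | cons e L ih =>
          obtain ⟨n, hn⟩ := ih
          obtain ⟨a, ha⟩ := Term.exists_below e.1
          obtain ⟨b, hb⟩ := Term.exists_below e.2
          refine ⟨max n (max a b), fun e' he' => ?_⟩
          rcases List.mem_cons.1 he' with rfl | he'
          · exact ⟨ha.mono (by omega), hb.mono (by omega)⟩
          · exact ⟨(hn e' he').1.mono (by omega), (hn e' he').2.mono (by omega)⟩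
      obtain ⟨n, hn⟩ := h1 (q.conclusion :: q.premises)
      exact ⟨n, fun e he => hn e (List.mem_cons_of_mem _ he), hn _ (by simp)⟩
    -- a valuation in `A` satisfying all equations true in `D`
    obtain ⟨u, hu1, hu2⟩ : ∃ u : ℕ → A.carrier,
        (∀ s t : Term, s.Below n0 → t.Below n0 → D.eval v s = D.eval v t →
          A.eval u s = A.eval u t) ∧ A.eval u q.conclusion.1 ≠ A.eval u q.conclusion.2 := by
      classical
      -- term functions in the variables below `n0`
      let Φ : Term → ((Fin n0 → A.carrier) → A.carrier) := fun t w =>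
        A.eval (fun n => if hn : n < n0 then w ⟨n, hn⟩ else A.bot) t
      have hΦ : ∀ s t : Term, s.Below n0 → t.Below n0 → Φ s = Φ t → A.Models (s, t) := by
        intro s t hs ht hst w
        have h2 := congrFun hst (fun i : Fin n0 => w i)
        simp only [Φ] at h2
        simp only
        rw [eval_congr A (w := fun n => if hn : n < n0 then w n else A.bot)
          (fun i hi => by simp [hi]) hs, eval_congr A (v := w)
          (w := fun n => if hn : n < n0 then w n else A.bot) (fun i hi => by simp [hi]) ht]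
        exact h2
      let R : ((Fin n0 → A.carrier) → A.carrier) → Term := fun φ =>
        if hφ : ∃ t : Term, t.Below n0 ∧ Φ t = φ then hφ.choose else Term.bot
      have hR : ∀ t : Term, t.Below n0 → (R (Φ t)).Below n0 ∧ Φ (R (Φ t)) = Φ t := by
        intro t ht
        have hφ : ∃ t' : Term, t'.Below n0 ∧ Φ t' = Φ t := ⟨t, ht, rfl⟩
        have : R (Φ t) = hφ.choose := dif_pos hφ
        rw [this]
        exact hφ.choose_spec
      haveI : Finite ((Fin n0 → A.carrier) → A.carrier) := inferInstance
      obtain ⟨L, hL⟩ : ∃ L : List (((Fin n0 → A.carrier) → A.carrier) ×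
          ((Fin n0 → A.carrier) → A.carrier)), ∀ z, z ∈ L := by
        haveI : Finite (((Fin n0 → A.carrier) → A.carrier) ×
          ((Fin n0 → A.carrier) → A.carrier)) := inferInstance
        obtain ⟨n, ⟨φ⟩⟩ := Finite.exists_equiv_fin (((Fin n0 → A.carrier) → A.carrier) ×
          ((Fin n0 → A.carrier) → A.carrier))
        refine ⟨(List.finRange n).map φ.symm, fun z => ?_⟩
        rw [List.mem_map]
        exact ⟨φ z, List.mem_finRange _, by simp⟩
      let P : List (Term × Term) := (L.map (fun z => (R z.1, R z.2))).filter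
        (fun e => decide (D.eval v e.1 = D.eval v e.2))
      have hqA : ¬ A.ModelsQ ⟨P, q.conclusion⟩ := by
        intro h
        apply hne
        apply hDA _ h v
        intro e he
        simp only [P, List.mem_filter, decide_eq_true_eq] at he
        exact he.2
      unfold Alg.ModelsQ at hqA
      push Not at hqA
      obtain ⟨u, hu1, hu2⟩ := hqA
      refine ⟨u, ?_, hu2⟩
      intro s t hs ht hst
      have e1 := hR s hs
      have e2 := hR t ht
      have hD : ∀ a b : Term, A.Models (a, b) → D.eval v a = D.eval v b := by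
        intro a b hab
        exact hDA ⟨[], (a, b)⟩ (fun w _ => hab w) v (by simp)
      have f1 := hΦ _ _ e1.1 hs e1.2
      have f2 := hΦ _ _ e2.1 ht e2.2
      have h3 : A.eval u (R (Φ s)) = A.eval u (R (Φ t)) := by
        apply hu1 (R (Φ s), R (Φ t))
        simp only [P, List.mem_filter, decide_eq_true_eq, List.mem_map]
        refine ⟨⟨(Φ s, Φ t), hL _, rfl⟩, ?_⟩
        rw [hD _ _ f1, hD _ _ f2, hst]
      rw [← f1 u, ← f2 u]
      exact h3
    -- the modified valuation
    let σ : ℕ → Term := fun n => if n < n0 then Term.var n else Term.bot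
    have hσ : ∀ t : Term, (t.subst σ).Below n0 := by
      intro t
      induction t with
      | var n =>
        by_cases hn : n < n0
        · simp only [Term.subst, σ, hn, if_true]; exact hn
        · simp only [Term.subst, σ, hn, if_false]; trivial
      | bot => trivial
      | top => trivial
      | meet s t ihs iht => exact ⟨ihs, iht⟩
      | join s t ihs iht => exact ⟨ihs, iht⟩
      | imp s t ihs iht => exact ⟨ihs, iht⟩
    let u' : ℕ → A.carrier := fun n => A.eval u (σ n)
    have hu' : ∀ t : Term, t.Below n0 → A.eval u' t = A.eval u t := by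
      intro t ht
      refine eval_congr A (fun i hi => ?_) ht
      simp [u', σ, hi, Alg.eval]
    have huE : ∀ s t : Term, (∀ M ∈ K', M.Models (s, t)) → A.eval u' s = A.eval u' t := by
      intro s t hst
      have h1 : A.eval u (s.subst σ) = A.eval u (t.subst σ) := by
        apply hu1 _ _ (hσ s) (hσ t)
        apply hDV (s.subst σ, t.subst σ)
        intro M hM w
        simp only
        rw [eval_subst, eval_subst]
        exact hst M hM _
      rw [eval_subst, eval_subst] at h1
      exact h1
    -- the product algebra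
    let I : Type := {e : Term × Term // ¬ ∀ M ∈ K', M.Models e}
    have hI : ∀ e : I, ∃ (M : Alg) (w : ℕ → M.carrier), M ∈ K' ∧ M.eval w e.1.1 ≠ M.eval w e.1.2 := by
      intro e
      have := e.2
      push Not at this
      obtain ⟨M, hM, hMe⟩ := this
      unfold Alg.Models at hMe
      push Not at hMe
      obtain ⟨w, hw⟩ := hMe
      exact ⟨M, w, hM, hw⟩
    choose M w hMK hMw using hI
    let P : Alg := prod M
    let b : ℕ → P.carrier := fun n e => w e n
    have hPE : ∀ s t : Term, P.eval b s = P.eval b t → ∀ M ∈ K', M.Models (s, t) := by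
      intro s t hst
      by_contra hcon
      have h1 := congrFun hst (⟨(s, t), hcon⟩ : I)
      have h2 := eval_prod M b s (⟨(s, t), hcon⟩ : I)
      have h3 := eval_prod M b t (⟨(s, t), hcon⟩ : I)
      have h4 : (prod M).eval b s (⟨(s, t), hcon⟩ : I) = (prod M).eval b t (⟨(s, t), hcon⟩ : I) := h1
      rw [h2, h3] at h4
      exact hMw ⟨(s, t), hcon⟩ h4
    have hPK : P ∈ K' := fun q hq => prod_modelsQ fun e => hMK e q hq
    have hPA : P ∈ A.Q := hK' hPK
    -- the generators
    classical
    set k := Nat.card A.carrier with hk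
    have hkpos : 0 < k := by
      haveI : Nonempty A.carrier := ⟨A.bot⟩
      exact Nat.card_pos
    let a : Fin k ≃ A.carrier := (Finite.equivFin A.carrier).symm
    let r : ℕ → Term := fun i => if hi : i < k then
        (if hr : ∃ t : Term, A.eval u' t = a ⟨i, hi⟩ then hr.choose else Term.bot)
      else (if hr : ∃ t : Term, A.eval u' t = a ⟨0, hkpos⟩ then hr.choose else Term.bot)
    have hr : ∀ t : Term, ∃ i, A.eval u' (r i) = A.eval u' t := by
      intro t
      obtain ⟨j, hj⟩ := a.surjective (A.eval u' t)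
      refine ⟨j, ?_⟩
      have h1 : ∃ t' : Term, A.eval u' t' = a ⟨j, j.2⟩ := ⟨t, hj.symm⟩
      have h2 : r j = h1.choose := by
        simp only [r, j.2, dif_pos]
        exact dif_pos h1
      rw [h2, h1.choose_spec]
      exact hj
    have hr0 : ∀ n, k ≤ n → r n = r 0 := by
      intro n hn
      have : ¬ n < k := by omega
      simp only [r, this, dif_neg, not_false_eq_true, hkpos, dif_pos]
    let c : ℕ → P.carrier := fun n => P.eval b (r n)
    have hcard := gen_card (A := A) hPA c k hkpos (fun n hn => by simp only [c, hr0 n hn])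
    haveI := hcard.1
    -- the homomorphism
    obtain ⟨h, hh, hval⟩ := exists_lift (P := P) (A := A) (c := c)
      (u := fun n => A.eval u' (r n)) (by
        intro s t hst
        have e1 : ∀ t : Term, A.eval (fun n => A.eval u' (r n)) t = A.eval u' (t.subst r) :=
          fun t => (eval_subst A u' r t).symm
        rw [e1, e1]
        apply huE
        apply hPE
        rw [eval_subst, eval_subst]
        exact hst)
    have himg : ∀ t : Term, ∃ z : (gen P c).carrier, h z = A.eval u' t := by
      intro t
      obtain ⟨i, hi⟩ := hr t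
      refine ⟨gens P c i, ?_⟩
      rw [hval (Term.var i) (gens P c i) rfl]
      exact hi
    have hBK : gen P c ∈ K' := fun q hq =>
      hom_injective_modelsQ (gen_incl P c) Subtype.val_injective (hPK q hq)
    obtain ⟨x, hx⟩ := himg q.conclusion.1
    obtain ⟨y, hy⟩ := himg q.conclusion.2
    have hxy : h x ≠ h y := by
      rw [hx, hy, hu' _ hn0.2.1, hu' _ hn0.2.2]
      exact hu2
    obtain ⟨g, hg, hgxy⟩ := hC (gen P c) hcard.1 (hcard.2.trans hN)
      (fun x y hxy => separate_of_mem_Q (hK' hBK) x y hxy) h hh x y hxy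
    -- the valuation
    have heval : ∀ t : Term, (gen P c).eval (fun n => g (u' n)) t = g (A.eval u' t) := by
      intro t
      induction t with
      | var n => rfl
      | bot =>
        simp only [Alg.eval]
        rw [← hh.bot]
        exact hg.bot.symm
      | top =>
        simp only [Alg.eval]
        rw [← hh.top]
        exact hg.top.symm
      | meet s t ihs iht =>
        obtain ⟨z1, hz1⟩ := himg s
        obtain ⟨z2, hz2⟩ := himg t
        simp only [Alg.eval]
        rw [ihs, iht, ← hz1, ← hz2, ← hh.meet]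
        exact (hg.meet z1 z2).symm
      | join s t ihs iht =>
        obtain ⟨z1, hz1⟩ := himg s
        obtain ⟨z2, hz2⟩ := himg t
        simp only [Alg.eval]
        rw [ihs, iht, ← hz1, ← hz2, ← hh.join]
        exact (hg.join z1 z2).symm
      | imp s t ihs iht =>
        obtain ⟨z1, hz1⟩ := himg s
        obtain ⟨z2, hz2⟩ := himg t
        simp only [Alg.eval]
        rw [ihs, iht, ← hz1, ← hz2, ← hh.imp]
        exact (hg.imp z1 z2).symm
    apply hgxy
    rw [hx, hy, ← heval, ← heval]
    apply hBK q hqT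
    intro e he
    rw [heval, heval, hu' _ (hn0.1 e he).1, hu' _ (hn0.1 e he).2,
      hu1 _ _ (hn0.1 e he).1 (hn0.1 e he).2 (hv e he)]

end Pool.Agent.H334R5.Hey
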