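import Pool.Agent.H334R5.Hey.Comp
import Pool.Agent.H334R5.Hey.Equiv

/-!
# From coded algebras to algebras
-/

set_option autoImplicit false

namespace Pool.Agent.H334R5.Hey

/-- The condition for one algebra `B`. -/
def CondB (A B : Alg) : Prop :=
  (∀ x y : B.carrier, x ≠ y → ∃ f : B.carrier → A.carrier, Hom B A f ∧ f x ≠ f y) →
    ∀ h : B.carrier → A.carrier, Hom B A h → ∀ x y : B.carrier, h x ≠ h y →
      ∃ g : A.carrier → B.carrier, Hom B B (fun z => g (h z)) ∧ g (h x) ≠ g (h y)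

theorem Hom.comp {A B C : Alg} {g : B.carrier → C.carrier} {f : A.carrier → B.carrier}
    (hg : Hom B C g) (hf : Hom A B f) : Hom A C (fun x => g (f x)) :=
  ⟨fun x y => by rw [hf.meet, hg.meet], fun x y => by rw [hf.join, hg.join],
    fun x y => by rw [hf.imp, hg.imp], by rw [hf.bot, hg.bot], by rw [hf.top, hg.top]⟩

theorem condB_iso {A B B' : Alg} (e : B.carrier ≃ B'.carrier) (he : Hom B B' e)
    (he' : Hom B' B e.symm) (h : CondB A B') : CondB A B := by
  intro hsep k hk x y hxy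
  obtain ⟨g, hg, hgxy⟩ := h (fun x' y' hxy' => by
    obtain ⟨f, hf, hfxy⟩ := hsep (e.symm x') (e.symm y') (fun hc => hxy' (e.symm.injective hc))
    exact ⟨fun z => f (e.symm z), hf.comp he', hfxy⟩) (fun z => k (e.symm z)) (hk.comp he')
    (e x) (e y) (by simpa using hxy)
  simp only [Equiv.symm_apply_apply] at hgxy
  refine ⟨fun a => e.symm (g a), ?_, fun hc => hgxy (e.symm.injective hc)⟩
  have := he'.comp (hg.comp he)
  simpa using this

/-! ### Functions and lists -/

theorem exists_list {n m : ℕ} (f : Fin (n + 1) → Fin (m + 1)) :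
    ∃ l ∈ allLists (n + 1) (m + 1), ∀ i : Fin (n + 1), l.getD i 0 = (f i : ℕ) := by
  refine ⟨List.ofFn (fun i => (f i : ℕ)), ?_, fun i => ?_⟩
  · rw [mem_allLists]
    refine ⟨by simp, fun a ha => ?_⟩
    rw [List.mem_ofFn] at ha
    obtain ⟨i, rfl⟩ := ha
    exact (f i).2
  · rw [List.getD_eq_getElem _ _ (by rw [List.length_ofFn]; exact i.2), List.getElem_ofFn]

theorem exists_fun {n m : ℕ} {l : List ℕ} (hl : l ∈ allLists (n + 1) (m + 1)) :
    ∃ f : Fin (n + 1) → Fin (m + 1), ∀ i : Fin (n + 1), l.getD i 0 = (f i : ℕ) := by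
  rw [mem_allLists] at hl
  refine ⟨fun i => ⟨l.getD i 0, ?_⟩, fun i => rfl⟩
  rw [List.getD_eq_getElem _ _ (by rw [hl.1]; exact i.2)]
  exact hl.2 _ (List.getElem_mem _)

theorem homF_iff {B C : Code} {F : ℕ → ℕ} {f : Fin (B.1 + 1) → Fin (C.1 + 1)}
    (h : ∀ i : Fin (B.1 + 1), F i = (f i).1) : HomF B C F ↔ Hom B.alg C.alg f := by
  constructor
  · rintro ⟨h1, h2, h3⟩
    refine ⟨fun x y => Fin.ext ?_, fun x y => Fin.ext ?_, fun x y => Fin.ext ?_, Fin.ext ?_,
      Fin.ext ?_⟩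
    · have e := (h1 x.1 x.2 y.1 y.2).1
      rw [h x, h y] at e
      exact (h (B.alg.meet x y)).symm.trans e
    · have e := (h1 x.1 x.2 y.1 y.2).2.1
      rw [h x, h y] at e
      exact (h (B.alg.join x y)).symm.trans e
    · have e := (h1 x.1 x.2 y.1 y.2).2.2
      rw [h x, h y] at e
      exact (h (B.alg.imp x y)).symm.trans e
    · exact (h B.alg.bot).symm.trans h2
    · exact (h B.alg.top).symm.trans h3
  · intro hf
    refine ⟨fun x hx y hy => ⟨?_, ?_, ?_⟩, ?_, ?_⟩
    · have e := congrArg Fin.val (hf.meet ⟨x, hx⟩ ⟨y, hy⟩)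
      have e1 := h (B.alg.meet ⟨x, hx⟩ ⟨y, hy⟩)
      have e2 := h ⟨x, hx⟩
      have e3 := h ⟨y, hy⟩
      simp only at e2 e3
      rw [e2, e3]
      exact e1.trans e
    · have e := congrArg Fin.val (hf.join ⟨x, hx⟩ ⟨y, hy⟩)
      have e1 := h (B.alg.join ⟨x, hx⟩ ⟨y, hy⟩)
      have e2 := h ⟨x, hx⟩
      have e3 := h ⟨y, hy⟩
      simp only at e2 e3
      rw [e2, e3]
      exact e1.trans e
    · have e := congrArg Fin.val (hf.imp ⟨x, hx⟩ ⟨y, hy⟩)
      have e1 := h (B.alg.imp ⟨x, hx⟩ ⟨y, hy⟩)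
      have e2 := h ⟨x, hx⟩
      have e3 := h ⟨y, hy⟩
      simp only at e2 e3
      rw [e2, e3]
      exact e1.trans e
    · exact (h B.alg.bot).trans (congrArg Fin.val hf.bot)
    · exact (h B.alg.top).trans (congrArg Fin.val hf.top)

theorem inner_iff (c B : Code) : Inner c B ↔ CondB c.alg B.alg := by
  unfold Inner CondB
  have hsep : (∀ x < B.1 + 1, ∀ y < B.1 + 1, x ≠ y → ∃ f ∈ allLists (B.1 + 1) (c.1 + 1),
      HomF B c (fun i => f.getD i 0) ∧ f.getD x 0 ≠ f.getD y 0) ↔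
      ∀ x y : Fin (B.1 + 1), x ≠ y → ∃ f : Fin (B.1 + 1) → Fin (c.1 + 1),
        Hom B.alg c.alg f ∧ f x ≠ f y := by
    constructor
    · intro h x y hxy
      obtain ⟨l, hl, h1, h2⟩ := h x x.2 y y.2 (fun hc => hxy (Fin.ext hc))
      obtain ⟨f, hf⟩ := exists_fun hl
      refine ⟨f, (homF_iff (F := fun i => l.getD i 0) hf).1 h1, fun hc => h2 ?_⟩
      rw [hf x, hf y, hc]
    · intro h x hx y hy hxy
      obtain ⟨f, h1, h2⟩ := h ⟨x, hx⟩ ⟨y, hy⟩ (fun hc => hxy (congrArg Fin.val hc))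
      obtain ⟨l, hl, hf⟩ := exists_list f
      refine ⟨l, hl, (homF_iff (F := fun i => l.getD i 0) hf).2 h1, fun hc => h2 (Fin.ext ?_)⟩
      rw [← hf ⟨x, hx⟩, ← hf ⟨y, hy⟩]
      exact hc
  rw [hsep]
  apply imp_congr_right
  intro _
  constructor
  · intro h k hk x y hxy
    obtain ⟨lk, hlk, hk'⟩ := exists_list (n := B.1) (m := c.1) k
    obtain ⟨lg, hlg, h1, h2⟩ := h lk hlk ((homF_iff (F := fun i => lk.getD i 0) hk').2 hk) x.1 x.2
      y.1 y.2 (fun hc => hxy (Fin.ext (by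
        have e1 := hk' x
        have e2 := hk' y
        exact e1.symm.trans (hc.trans e2))))
    obtain ⟨g, hg⟩ := exists_fun hlg
    have hgk : ∀ i : Fin (B.1 + 1), lg.getD (lk.getD i 0) 0 = (g (k i)).1 := by
      intro i
      rw [hk' i]
      exact hg (k i)
    refine ⟨g, (homF_iff (F := fun i => lg.getD (lk.getD i 0) 0) hgk).1 h1, fun hc => h2 ?_⟩
    have e1 := hgk x
    have e2 := hgk y
    exact e1.trans ((congrArg Fin.val hc).trans e2.symm)
  · intro h lk hlk hk x hx y hy hxy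
    obtain ⟨k, hk'⟩ := exists_fun hlk
    obtain ⟨g, h1, h2⟩ := h k ((homF_iff (F := fun i => lk.getD i 0) hk').1 hk) ⟨x, hx⟩ ⟨y, hy⟩
      (fun hc => hxy (by
        have e1 := hk' ⟨x, hx⟩
        have e2 := hk' ⟨y, hy⟩
        exact e1.trans ((congrArg Fin.val hc).trans e2.symm)))
    obtain ⟨lg, hlg, hg⟩ := exists_list (n := c.1) (m := B.1) g
    have hgk : ∀ i : Fin (B.1 + 1), lg.getD (lk.getD i 0) 0 = (g (k i)).1 := by
      intro i
      rw [hk' i]
      exact hg (k i)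
    refine ⟨lg, hlg, (homF_iff (F := fun i => lg.getD (lk.getD i 0) 0) hgk).2 h1,
      fun hc => h2 (Fin.ext ?_)⟩
    have e1 := hgk ⟨x, hx⟩
    have e2 := hgk ⟨y, hy⟩
    exact e1.symm.trans (hc.trans e2)

/-! ### Every finite algebra has a code -/

/-- the table of an operation -/
def table (n : ℕ) (f : Fin (n + 1) → Fin (n + 1) → Fin (n + 1)) : List ℕ :=
  (List.range ((n + 1) * (n + 1))).map (fun i =>
    (f ⟨i / (n + 1) % (n + 1), Nat.mod_lt _ (Nat.succ_pos _)⟩
      ⟨i % (n + 1), Nat.mod_lt _ (Nat.succ_pos _)⟩ : ℕ))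

theorem table_mem (n : ℕ) (f : Fin (n + 1) → Fin (n + 1) → Fin (n + 1)) :
    table n f ∈ allLists ((n + 1) * (n + 1)) (n + 1) := by
  rw [mem_allLists]
  refine ⟨by simp [table], fun a ha => ?_⟩
  unfold table at ha
  rw [List.mem_map] at ha
  obtain ⟨i, -, rfl⟩ := ha
  exact Fin.is_lt _

theorem entry_table (n : ℕ) (f : Fin (n + 1) → Fin (n + 1) → Fin (n + 1)) (x y : Fin (n + 1)) :
    entry n (table n f) x y = (f x y : ℕ) := by
  unfold entry table
  have h1 : (x : ℕ) * (n + 1) + y < (n + 1) * (n + 1) := by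
    have h2 := x.2
    have h3 := y.2
    nlinarith
  rw [List.getD_eq_getElem _ _ (by simpa using h1)]
  simp only [List.getElem_map, List.getElem_range]
  have e1 : ((x : ℕ) * (n + 1) + y) / (n + 1) % (n + 1) = x := by
    rw [Nat.mul_comm, Nat.mul_add_div (Nat.succ_pos n), Nat.div_eq_of_lt y.2, Nat.add_zero,
      Nat.mod_eq_of_lt x.2]
  have e2 : ((x : ℕ) * (n + 1) + y) % (n + 1) = y := by
    rw [Nat.mul_comm, Nat.mul_add_mod, Nat.mod_eq_of_lt y.2]
  have e3 : (⟨((x : ℕ) * (n + 1) + y) / (n + 1) % (n + 1), Nat.mod_lt _ (Nat.succ_pos _)⟩ :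
      Fin (n + 1)) = x := Fin.ext e1
  have e4 : (⟨((x : ℕ) * (n + 1) + y) % (n + 1), Nat.mod_lt _ (Nat.succ_pos _)⟩ :
      Fin (n + 1)) = y := Fin.ext e2
  rw [e3, e4]
  exact Nat.mod_eq_of_lt (Fin.is_lt _)

theorem condL_iff (c : Code) :
    CondL c ↔ Cond c.alg ((c.1 + 1) ^ ((c.1 + 1) ^ (c.1 + 1))) := by
  constructor
  · intro h B hfin hcard
    haveI := hfin
    haveI : Nonempty B.carrier := ⟨B.bot⟩
    obtain ⟨m, hm⟩ : ∃ m, Nat.card B.carrier = m + 1 := ⟨Nat.card B.carrier - 1, by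
      have := Nat.card_pos (α := B.carrier)
      omega⟩
    let e : B.carrier ≃ Fin (m + 1) := (Finite.equivFin B.carrier).trans (finCongr hm)
    let B' : Code := (m, table m (fun x y => e (B.meet (e.symm x) (e.symm y))),
      table m (fun x y => e (B.join (e.symm x) (e.symm y))),
      table m (fun x y => e (B.imp (e.symm x) (e.symm y))), (e B.bot : ℕ), (e B.top : ℕ))
    have hmeet : ∀ x y : Fin (m + 1), B'.alg.meet x y = e (B.meet (e.symm x) (e.symm y)) :=
      fun x y => Fin.ext (entry_table m (fun x y => e (B.meet (e.symm x) (e.symm y))) x y)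
    have hjoin : ∀ x y : Fin (m + 1), B'.alg.join x y = e (B.join (e.symm x) (e.symm y)) :=
      fun x y => Fin.ext (entry_table m (fun x y => e (B.join (e.symm x) (e.symm y))) x y)
    have himp : ∀ x y : Fin (m + 1), B'.alg.imp x y = e (B.imp (e.symm x) (e.symm y)) :=
      fun x y => Fin.ext (entry_table m (fun x y => e (B.imp (e.symm x) (e.symm y))) x y)
    have hbot : B'.alg.bot = e B.bot := Fin.ext (Nat.mod_eq_of_lt (Fin.is_lt _))
    have htop : B'.alg.top = e B.top := Fin.ext (Nat.mod_eq_of_lt (Fin.is_lt _))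
    have h1 : Inner c B' := h m (by omega) _ (table_mem _ _) _ (table_mem _ _) _ (table_mem _ _)
      _ (Fin.is_lt _) _ (Fin.is_lt _)
    have h2 : CondB c.alg B'.alg := (inner_iff c B').1 h1
    refine condB_iso (B' := B'.alg) e ?_ ?_ h2
    · refine ⟨fun x y => ?_, fun x y => ?_, fun x y => ?_, hbot.symm, htop.symm⟩
      · exact ((hmeet (e x) (e y)).trans
          (by rw [e.symm_apply_apply, e.symm_apply_apply]; rfl)).symm
      · exact ((hjoin (e x) (e y)).trans
          (by rw [e.symm_apply_apply, e.symm_apply_apply]; rfl)).symm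
      · exact ((himp (e x) (e y)).trans
          (by rw [e.symm_apply_apply, e.symm_apply_apply]; rfl)).symm
    · refine ⟨fun x y => ?_, fun x y => ?_, fun x y => ?_, ?_, ?_⟩
      · exact (congrArg e.symm (hmeet x y)).trans (e.symm_apply_apply _)
      · exact (congrArg e.symm (hjoin x y)).trans (e.symm_apply_apply _)
      · exact (congrArg e.symm (himp x y)).trans (e.symm_apply_apply _)
      · exact (congrArg e.symm hbot).trans (e.symm_apply_apply _)
      · exact (congrArg e.symm htop).trans (e.symm_apply_apply _)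
  · intro h m hm mt _ jt _ it _ b _ t _
    rw [inner_iff]
    refine h _ (inferInstanceAs (Finite (Fin (m + 1)))) ?_
    have : Nat.card (Code.alg (m, mt, jt, it, b, t)).carrier = m + 1 := Nat.card_fin (m + 1)
    rw [this]
    exact hm

end Pool.Agent.H334R5.Hey
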