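import Pool.Agent.H334R5.Hey.Defs

/-!
# Primitive recursive predicates: bounded quantifiers, homomorphisms between coded algebras
-/

set_option autoImplicit false

namespace Pool.Agent.H334R5.Hey

section General

variable {α β γ : Type} [Primcodable α] [Primcodable β] [Primcodable γ]

attribute [fun_prop] Primrec

@[fun_prop]
theorem pr_id : Primrec (fun a : α => a) := Primrec.id

@[fun_prop]
theorem pr_const (b : β) : Primrec (fun _ : α => b) := Primrec.const b

@[fun_prop]
theorem pr_comp {g : β → γ} {f : α → β} (hg : Primrec g) (hf : Primrec f) :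
    Primrec (fun a => g (f a)) := hg.comp hf

@[fun_prop]
theorem pr_pair {f : α → β} {g : α → γ} (hf : Primrec f) (hg : Primrec g) :
    Primrec (fun a => (f a, g a)) := hf.pair hg

@[fun_prop]
theorem pr_fst {f : α → β × γ} (hf : Primrec f) : Primrec (fun a => (f a).1) := Primrec.fst.comp hf

@[fun_prop]
theorem pr_snd {f : α → β × γ} (hf : Primrec f) : Primrec (fun a => (f a).2) := Primrec.snd.comp hf

@[fun_prop]
theorem pr_add {f g : α → ℕ} (hf : Primrec f) (hg : Primrec g) : Primrec (fun a => f a + g a) :=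
  Primrec.nat_add.comp hf hg

@[fun_prop]
theorem pr_mul {f g : α → ℕ} (hf : Primrec f) (hg : Primrec g) : Primrec (fun a => f a * g a) :=
  Primrec.nat_mul.comp hf hg

@[fun_prop]
theorem pr_mod {f g : α → ℕ} (hf : Primrec f) (hg : Primrec g) : Primrec (fun a => f a % g a) :=
  Primrec.nat_mod.comp hf hg

@[fun_prop]
theorem pr_pow {f g : α → ℕ} (hf : Primrec f) (hg : Primrec g) : Primrec (fun a => f a ^ g a) := by
  have h : Primrec₂ ((· ^ ·) : ℕ → ℕ → ℕ) := Primrec₂.unpaired'.1 Nat.Primrec.pow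
  exact h.comp hf hg

@[fun_prop]
theorem pr_getD {l : α → List ℕ} {n : α → ℕ} (hl : Primrec l) (hn : Primrec n) :
    Primrec (fun a => (l a).getD (n a) 0) :=
  (Primrec.list_getD 0).comp hl hn

theorem pp_ball {L : α → List β} {R : α → β → Prop} (hL : Primrec L)
    (hR : PrimrecPred fun p : α × β => R p.1 p.2) : PrimrecPred fun a => ∀ b ∈ L a, R a b := by
  have h : PrimrecRel (fun (b : β) (a : α) => R a b) :=
    PrimrecPred.comp hR (Primrec.pair Primrec.snd Primrec.fst)
  exact h.forall_mem_list.comp hL Primrec.id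

theorem pp_bex {L : α → List β} {R : α → β → Prop} (hL : Primrec L)
    (hR : PrimrecPred fun p : α × β => R p.1 p.2) : PrimrecPred fun a => ∃ b ∈ L a, R a b := by
  have h : PrimrecRel (fun (b : β) (a : α) => R a b) :=
    PrimrecPred.comp hR (Primrec.pair Primrec.snd Primrec.fst)
  exact h.exists_mem_list.comp hL Primrec.id

theorem pp_ball_lt {n : α → ℕ} {R : α → ℕ → Prop} (hn : Primrec n)
    (hR : PrimrecPred fun p : α × ℕ => R p.1 p.2) : PrimrecPred fun a => ∀ b < n a, R a b :=
  (pp_ball (L := fun a => List.range (n a)) (Primrec.list_range.comp hn) hR).of_eq fun a => by simp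

theorem pp_imp {p q : α → Prop} (hp : PrimrecPred p) (hq : PrimrecPred q) :
    PrimrecPred fun a => p a → q a :=
  (hp.not.or hq).of_eq fun a => by tauto

theorem pp_eq {f g : α → ℕ} (hf : Primrec f) (hg : Primrec g) :
    PrimrecPred fun a => f a = g a := Primrec.eq.comp hf hg

theorem pp_ne {f g : α → ℕ} (hf : Primrec f) (hg : Primrec g) :
    PrimrecPred fun a => f a ≠ g a := (pp_eq hf hg).not

end General

/-! ### All lists -/

/-- All lists of length `k` with entries less than `m`. -/
def allLists : ℕ → ℕ → List (List ℕ)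
  | 0, _ => [[]]
  | k + 1, m => (allLists k m).flatMap (fun l => (List.range m).map (fun a => a :: l))

theorem mem_allLists {m : ℕ} : ∀ {k : ℕ} {l : List ℕ},
    l ∈ allLists k m ↔ l.length = k ∧ ∀ a ∈ l, a < m := by
  intro k
  induction k with
  | zero =>
    intro l
    simp only [allLists, List.mem_cons, List.not_mem_nil, or_false]
    constructor
    · rintro rfl; simp
    · rintro ⟨h, -⟩; exact List.length_eq_zero_iff.1 h
  | succ k ih =>
    intro l
    simp only [allLists, List.mem_flatMap, List.mem_map, List.mem_range]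
    constructor
    · rintro ⟨l', hl', a, ha, rfl⟩
      rw [ih] at hl'
      refine ⟨by simp [hl'.1], fun b hb => ?_⟩
      rcases List.mem_cons.1 hb with rfl | hb
      · exact ha
      · exact hl'.2 b hb
    · rintro ⟨h1, h2⟩
      cases l with
      | nil => simp at h1
      | cons a l =>
        exact ⟨l, ih.2 ⟨by simpa using h1, fun b hb => h2 b (List.mem_cons_of_mem _ hb)⟩, a,
          h2 a (by simp), rfl⟩

theorem primrec_allLists {α : Type} [Primcodable α] {k m : α → ℕ} (hk : Primrec k)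
    (hm : Primrec m) : Primrec (fun a => allLists (k a) (m a)) := by
  have h : Primrec (fun a => (k a).rec (motive := fun _ => List (List ℕ)) [[]]
      (fun _ IH => IH.flatMap (fun l => (List.range (m a)).map (fun b => b :: l)))) := by
    refine Primrec.nat_rec' (f := k) (g := fun _ => [[]])
      (h := fun a p => p.2.flatMap (fun l => (List.range (m a)).map (fun b => b :: l))) hk
      (Primrec.const _) ?_
    refine Primrec.list_flatMap (f := fun p : α × ℕ × List (List ℕ) => p.2.2)
      (g := fun p l => (List.range (m p.1)).map (fun b => b :: l)) (by fun_prop) ?_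
    refine Primrec.list_map (f := fun q : (α × ℕ × List (List ℕ)) × List ℕ =>
      List.range (m q.1.1)) (g := fun q b => b :: q.2) ?_ ?_
    · exact Primrec.list_range.comp (hm.comp (by fun_prop))
    · exact Primrec.list_cons.comp (Primrec.snd) (Primrec.snd.comp Primrec.fst)
  refine h.of_eq fun a => ?_
  induction k a with
  | zero => rfl
  | succ n ih => simp only [allLists]; rw [← ih]

/-! ### Homomorphisms between coded algebras -/

/-- `F` is a homomorphism between the coded algebras. -/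
def HomF (B C : Code) (F : ℕ → ℕ) : Prop :=
  (∀ x < B.1 + 1, ∀ y < B.1 + 1,
    F (entry B.1 B.2.1 x y) = entry C.1 C.2.1 (F x) (F y) ∧
    F (entry B.1 B.2.2.1 x y) = entry C.1 C.2.2.1 (F x) (F y) ∧
    F (entry B.1 B.2.2.2.1 x y) = entry C.1 C.2.2.2.1 (F x) (F y)) ∧
  F (B.2.2.2.2.1 % (B.1 + 1)) = C.2.2.2.2.1 % (C.1 + 1) ∧
  F (B.2.2.2.2.2 % (B.1 + 1)) = C.2.2.2.2.2 % (C.1 + 1)

section

variable {α : Type} [Primcodable α]

@[fun_prop]
theorem pr_entry {n : α → ℕ} {t : α → List ℕ} {x y : α → ℕ} (hn : Primrec n) (ht : Primrec t)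
    (hx : Primrec x) (hy : Primrec y) : Primrec (fun a => entry (n a) (t a) (x a) (y a)) := by
  unfold entry
  fun_prop

theorem pp_homF {B C : α → Code} {F : α → ℕ → ℕ} (hB : Primrec B) (hC : Primrec C)
    (hF : Primrec₂ F) : PrimrecPred (fun a => HomF (B a) (C a) (F a)) := by
  unfold HomF
  have hF' : ∀ {γ : Type} [Primcodable γ] {f : γ → α} {x : γ → ℕ}, Primrec f → Primrec x →
      Primrec (fun c => F (f c) (x c)) := fun h1 h2 => hF.comp h1 h2
  refine PrimrecPred.and ?_ (PrimrecPred.and (pp_eq (hF' Primrec.id (by fun_prop)) (by fun_prop))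
    (pp_eq (hF' Primrec.id (by fun_prop)) (by fun_prop)))
  refine pp_ball_lt (by fun_prop) (pp_ball_lt (by fun_prop) ?_)
  have e1 : Primrec (fun p : (α × ℕ) × ℕ => F p.1.1 p.1.2) := hF' (by fun_prop) (by fun_prop)
  have e2 : Primrec (fun p : (α × ℕ) × ℕ => F p.1.1 p.2) := hF' (by fun_prop) (by fun_prop)
  refine PrimrecPred.and ?_ (PrimrecPred.and ?_ ?_)
  · exact pp_eq (hF' (by fun_prop) (by fun_prop)) (by fun_prop)
  · exact pp_eq (hF' (by fun_prop) (by fun_prop)) (by fun_prop)
  · exact pp_eq (hF' (by fun_prop) (by fun_prop)) (by fun_prop)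

end

/-- The condition for one coded algebra `B`. -/
def Inner (c B : Code) : Prop :=
  (∀ x < B.1 + 1, ∀ y < B.1 + 1, x ≠ y → ∃ f ∈ allLists (B.1 + 1) (c.1 + 1),
    HomF B c (fun i => f.getD i 0) ∧ f.getD x 0 ≠ f.getD y 0) →
  ∀ h ∈ allLists (B.1 + 1) (c.1 + 1), HomF B c (fun i => h.getD i 0) →
    ∀ x < B.1 + 1, ∀ y < B.1 + 1, h.getD x 0 ≠ h.getD y 0 →
      ∃ g ∈ allLists (c.1 + 1) (B.1 + 1), HomF B B (fun i => g.getD (h.getD i 0) 0) ∧
        g.getD (h.getD x 0) 0 ≠ g.getD (h.getD y 0) 0

/-- The condition. -/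
def CondL (c : Code) : Prop :=
  ∀ m < (c.1 + 1) ^ ((c.1 + 1) ^ (c.1 + 1)),
    ∀ mt ∈ allLists ((m + 1) * (m + 1)) (m + 1), ∀ jt ∈ allLists ((m + 1) * (m + 1)) (m + 1),
    ∀ it ∈ allLists ((m + 1) * (m + 1)) (m + 1), ∀ b < m + 1, ∀ t < m + 1,
      Inner c (m, mt, jt, it, b, t)

theorem pp_inner : PrimrecPred (fun p : Code × Code => Inner p.1 p.2) := by
  unfold Inner
  refine pp_imp ?_ ?_
  · refine pp_ball_lt (by fun_prop) (pp_ball_lt (by fun_prop) (pp_imp (pp_ne (by fun_prop)
      (by fun_prop)) ?_))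
    refine pp_bex (primrec_allLists (by fun_prop) (by fun_prop)) (PrimrecPred.and ?_
      (pp_ne (by fun_prop) (by fun_prop)))
    refine pp_homF (F := fun (p : (((Code × Code) × ℕ) × ℕ) × List ℕ) i => p.2.getD i 0)
      (by fun_prop) (by fun_prop) ?_
    exact Primrec₂.mk (by fun_prop)
  · refine pp_ball (primrec_allLists (by fun_prop) (by fun_prop)) (pp_imp ?_ ?_)
    · refine pp_homF (F := fun (p : (Code × Code) × List ℕ) i => p.2.getD i 0)
        (by fun_prop) (by fun_prop) ?_
      exact Primrec₂.mk (by fun_prop)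
    · refine pp_ball_lt (by fun_prop) (pp_ball_lt (by fun_prop) (pp_imp (pp_ne (by fun_prop)
        (by fun_prop)) ?_))
      refine pp_bex (primrec_allLists (by fun_prop) (by fun_prop)) (PrimrecPred.and ?_
        (pp_ne (by fun_prop) (by fun_prop)))
      refine pp_homF (F := fun (p : ((((Code × Code) × List ℕ) × ℕ) × ℕ) × List ℕ) i =>
        p.2.getD (p.1.1.1.2.getD i 0) 0) (by fun_prop) (by fun_prop) ?_
      exact Primrec₂.mk (by fun_prop)

theorem pp_condL : PrimrecPred CondL := by
  unfold CondL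
  refine pp_ball_lt (by fun_prop) ?_
  refine pp_ball (primrec_allLists (by fun_prop) (by fun_prop)) ?_
  refine pp_ball (primrec_allLists (by fun_prop) (by fun_prop)) ?_
  refine pp_ball (primrec_allLists (by fun_prop) (by fun_prop)) ?_
  refine pp_ball_lt (by fun_prop) (pp_ball_lt (by fun_prop) ?_)
  exact PrimrecPred.comp (p := fun p : Code × Code => Inner p.1 p.2)
    (f := fun p : (((((Code × ℕ) × List ℕ) × List ℕ) × List ℕ) × ℕ) × ℕ =>
      (p.1.1.1.1.1.1, (p.1.1.1.1.1.2, p.1.1.1.1.2, p.1.1.1.2, p.1.1.2, p.1.2, p.2)))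
    pp_inner (by fun_prop)

end Pool.Agent.H334R5.Hey
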