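import Mathlib

/-!
# Quasivarieties of algebras in the signature of Heyting algebras, coded finite algebras
-/

set_option autoImplicit false

namespace Pool.Agent.H334R5.Hey

/-- Terms in the signature `(∧, ∨, →, 0, 1)` in the variables `x₀, x₁, ...`. -/
inductive Term : Type
  | var (n : ℕ) : Term
  | bot : Term
  | top : Term
  | meet (s t : Term) : Term
  | join (s t : Term) : Term
  | imp (s t : Term) : Term

/-- An algebra in the signature `(∧, ∨, →, 0, 1)`. -/
structure Alg where
  /-- the carrier -/
  carrier : Type
  /-- the operation `∧` -/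
  meet : carrier → carrier → carrier
  /-- the operation `∨` -/
  join : carrier → carrier → carrier
  /-- the operation `→` -/
  imp : carrier → carrier → carrier
  /-- the constant `0` -/
  bot : carrier
  /-- the constant `1` -/
  top : carrier

/-- The value of a term in an algebra under a valuation of the variables. -/
def Alg.eval (A : Alg) (v : ℕ → A.carrier) : Term → A.carrier
  | .var n => v n
  | .bot => A.bot
  | .top => A.top
  | .meet s t => A.meet (A.eval v s) (A.eval v t)
  | .join s t => A.join (A.eval v s) (A.eval v t)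
  | .imp s t => A.imp (A.eval v s) (A.eval v t)

/-- A quasi-identity `s₁ ≈ t₁ ∧ ... ∧ sₖ ≈ tₖ → s ≈ t`. -/
structure QuasiIdentity where
  /-- the premises -/
  premises : List (Term × Term)
  /-- the conclusion -/
  conclusion : Term × Term

/-- The identity `e.1 ≈ e.2` is valid in the algebra `A`. -/
def Alg.Models (A : Alg) (e : Term × Term) : Prop := ∀ v, A.eval v e.1 = A.eval v e.2

/-- The quasi-identity `q` is valid in the algebra `A`. -/
def Alg.ModelsQ (A : Alg) (q : QuasiIdentity) : Prop :=
  ∀ v, (∀ e ∈ q.premises, A.eval v e.1 = A.eval v e.2) →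
    A.eval v q.conclusion.1 = A.eval v q.conclusion.2

/-- The quasivariety generated by the algebra `A`: the class of all algebras of the signature
satisfying every quasi-identity valid in `A`. -/
def Alg.Q (A : Alg) : Set Alg := {B | ∀ q, A.ModelsQ q → B.ModelsQ q}

/-- A class of algebras is a quasivariety if it is the class of all algebras satisfying some set of
quasi-identities. -/
def IsQuasivariety (K : Set Alg) : Prop :=
  ∃ T : Set QuasiIdentity, K = {B | ∀ q ∈ T, B.ModelsQ q}

/-- A class of algebras is a variety if it is the class of all algebras satisfying some set of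
identities. -/
def IsVariety (K : Set Alg) : Prop := ∃ T : Set (Term × Term), K = {B | ∀ e ∈ T, B.Models e}

/-- The quasivariety `K` is primitive: each subquasivariety of `K` is the intersection of `K` with
a variety. -/
def Primitive (K : Set Alg) : Prop :=
  ∀ K' : Set Alg, K' ⊆ K → IsQuasivariety K' → ∃ V : Set Alg, IsVariety V ∧ K' = K ∩ V

/-- The algebra `A` is a Heyting algebra. -/
def Alg.IsHeyting (A : Alg) : Prop :=
  ∃ _inst : HeytingAlgebra A.carrier, (∀ x y : A.carrier, x ⊓ y = A.meet x y) ∧
    (∀ x y : A.carrier, x ⊔ y = A.join x y) ∧ (∀ x y : A.carrier, x ⇨ y = A.imp x y) ∧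
    (⊥ : A.carrier) = A.bot ∧ (⊤ : A.carrier) = A.top

/-- Codes of finite algebras of the signature: `(n, m, j, i, b, t)` codes an algebra with the
carrier `{0, ..., n}`, where `m`, `j`, `i` are the tables of the three binary operations, listed
row by row, and `b`, `t` are the constants. -/
abbrev Code : Type := ℕ × List ℕ × List ℕ × List ℕ × ℕ × ℕ

/-- The entry in the row `x` and the column `y` of a table, reduced modulo `n + 1` (a missing entry
is read as `0`). -/
def entry (n : ℕ) (table : List ℕ) (x y : ℕ) : ℕ := table.getD (x * (n + 1) + y) 0 % (n + 1)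

/-- The finite algebra with the given code. -/
def Code.alg (c : Code) : Alg where
  carrier := Fin (c.1 + 1)
  meet x y := ⟨entry c.1 c.2.1 x y, Nat.mod_lt _ (Nat.succ_pos _)⟩
  join x y := ⟨entry c.1 c.2.2.1 x y, Nat.mod_lt _ (Nat.succ_pos _)⟩
  imp x y := ⟨entry c.1 c.2.2.2.1 x y, Nat.mod_lt _ (Nat.succ_pos _)⟩
  bot := ⟨c.2.2.2.2.1 % (c.1 + 1), Nat.mod_lt _ (Nat.succ_pos _)⟩
  top := ⟨c.2.2.2.2.2 % (c.1 + 1), Nat.mod_lt _ (Nat.succ_pos _)⟩

end Pool.Agent.H334R5.Hey
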