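import Pool.Agent.H334R5.Hey.Bridge

/-!
# Decidability of primitivity
-/

set_option autoImplicit false

namespace Pool.Agent.H334R5.Hey

theorem primitive_iff (c : Code) : Primitive c.alg.Q ↔ CondL c := by
  haveI : Finite c.alg.carrier := inferInstanceAs (Finite (Fin (c.1 + 1)))
  have hcard : Nat.card c.alg.carrier = c.1 + 1 := Nat.card_fin (c.1 + 1)
  rw [condL_iff]
  constructor
  · intro h
    exact cond_of_primitive (A := c.alg) (fun x : Fin (c.1 + 1) => (x : ℕ)) Fin.val_injective h _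
  · intro h
    exact primitive_of_cond (by rw [hcard]) h

/-! ### Heyting algebras -/

/-- The axioms of Heyting algebras. -/
def HeyAx (A : Alg) : Prop :=
  ((∀ x y, A.meet x y = A.meet y x) ∧ (∀ x y, A.join x y = A.join y x)) ∧
  ((∀ x y z, A.meet (A.meet x y) z = A.meet x (A.meet y z)) ∧
    (∀ x y z, A.join (A.join x y) z = A.join x (A.join y z))) ∧
  ((∀ x y, A.meet x (A.join x y) = x) ∧ (∀ x y, A.join x (A.meet x y) = x)) ∧
  ((∀ x, A.meet A.bot x = A.bot) ∧ (∀ x, A.meet x A.top = x)) ∧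
  (∀ x y z, A.meet x (A.imp y z) = x ↔ A.meet (A.meet x y) z = A.meet x y)

theorem isHeyting_iff (A : Alg) : A.IsHeyting ↔ HeyAx A := by
  constructor
  · rintro ⟨inst, h1, h2, h3, h4, h5⟩
    refine ⟨⟨fun x y => ?_, fun x y => ?_⟩, ⟨fun x y z => ?_, fun x y z => ?_⟩,
      ⟨fun x y => ?_, fun x y => ?_⟩, ⟨fun x => ?_, fun x => ?_⟩, fun x y z => ?_⟩
    · rw [← h1, ← h1, inf_comm]
    · rw [← h2, ← h2, sup_comm]
    · rw [← h1, ← h1, ← h1, ← h1, inf_assoc]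
    · rw [← h2, ← h2, ← h2, ← h2, sup_assoc]
    · rw [← h1, ← h2, inf_sup_self]
    · rw [← h1, ← h2, sup_inf_self]
    · rw [← h1, ← h4, bot_inf_eq]
    · rw [← h1, ← h5, inf_top_eq]
    · rw [← h1, ← h1, ← h1, ← h3, inf_eq_left, inf_eq_left, le_himp_iff]
  · rintro ⟨⟨h1, h2⟩, ⟨h3, h4⟩, ⟨h5, h6⟩, ⟨h7, h8⟩, h9⟩
    letI i1 : Max A.carrier := ⟨A.join⟩
    letI i2 : Min A.carrier := ⟨A.meet⟩
    letI L : Lattice A.carrier := Lattice.mk' h2 h4 h1 h3 h6 h5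
    have hle : ∀ x y : A.carrier, x ≤ y ↔ A.meet x y = x := fun x y => by
      rw [← inf_eq_left]
      exact Iff.rfl
    refine ⟨{ L with
      top := A.top
      le_top := fun x => (hle x A.top).2 (h8 x)
      himp := A.imp
      le_himp_iff := fun x y z => by
        rw [hle, hle]
        exact h9 x y z
      bot := A.bot
      bot_le := fun x => (hle A.bot x).2 (h7 x)
      compl := fun x => A.imp x A.bot
      himp_bot := fun _ => rfl }, fun _ _ => rfl, fun _ _ => rfl, fun _ _ => rfl, rfl, rfl⟩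

/-- The axioms for coded algebras. -/
def HeyL (c : Code) : Prop :=
  ∀ x < c.1 + 1, ∀ y < c.1 + 1, ∀ z < c.1 + 1,
    (entry c.1 c.2.1 x y = entry c.1 c.2.1 y x ∧ entry c.1 c.2.2.1 x y = entry c.1 c.2.2.1 y x) ∧
    (entry c.1 c.2.1 (entry c.1 c.2.1 x y) z = entry c.1 c.2.1 x (entry c.1 c.2.1 y z) ∧
      entry c.1 c.2.2.1 (entry c.1 c.2.2.1 x y) z = entry c.1 c.2.2.1 x (entry c.1 c.2.2.1 y z)) ∧
    (entry c.1 c.2.1 x (entry c.1 c.2.2.1 x y) = x ∧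
      entry c.1 c.2.2.1 x (entry c.1 c.2.1 x y) = x) ∧
    (entry c.1 c.2.1 (c.2.2.2.2.1 % (c.1 + 1)) x = c.2.2.2.2.1 % (c.1 + 1) ∧
      entry c.1 c.2.1 x (c.2.2.2.2.2 % (c.1 + 1)) = x) ∧
    ((entry c.1 c.2.1 x (entry c.1 c.2.2.2.1 y z) = x →
        entry c.1 c.2.1 (entry c.1 c.2.1 x y) z = entry c.1 c.2.1 x y) ∧
      (entry c.1 c.2.1 (entry c.1 c.2.1 x y) z = entry c.1 c.2.1 x y →
        entry c.1 c.2.1 x (entry c.1 c.2.2.2.1 y z) = x))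

theorem heyL_iff (c : Code) : HeyL c ↔ HeyAx c.alg := by
  constructor
  · intro h
    have h' : ∀ x y z : Fin (c.1 + 1), _ := fun x y z => h x.1 x.2 y.1 y.2 z.1 z.2
    refine ⟨⟨fun x y => Fin.ext (h' x y x).1.1, fun x y => Fin.ext (h' x y x).1.2⟩,
      ⟨fun x y z => Fin.ext (h' x y z).2.1.1, fun x y z => Fin.ext (h' x y z).2.1.2⟩,
      ⟨fun x y => Fin.ext (h' x y x).2.2.1.1, fun x y => Fin.ext (h' x y x).2.2.1.2⟩,
      ⟨fun x => Fin.ext (h' x x x).2.2.2.1.1, fun x => Fin.ext (h' x x x).2.2.2.1.2⟩,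
      fun x y z => ⟨fun hh => Fin.ext ((h' x y z).2.2.2.2.1 (congrArg Fin.val hh)),
        fun hh => Fin.ext ((h' x y z).2.2.2.2.2 (congrArg Fin.val hh))⟩⟩
  · rintro ⟨⟨h1, h2⟩, ⟨h3, h4⟩, ⟨h5, h6⟩, ⟨h7, h8⟩, h9⟩ x hx y hy z hz
    exact ⟨⟨congrArg Fin.val (h1 ⟨x, hx⟩ ⟨y, hy⟩), congrArg Fin.val (h2 ⟨x, hx⟩ ⟨y, hy⟩)⟩,
      ⟨congrArg Fin.val (h3 ⟨x, hx⟩ ⟨y, hy⟩ ⟨z, hz⟩),
        congrArg Fin.val (h4 ⟨x, hx⟩ ⟨y, hy⟩ ⟨z, hz⟩)⟩,
      ⟨congrArg Fin.val (h5 ⟨x, hx⟩ ⟨y, hy⟩), congrArg Fin.val (h6 ⟨x, hx⟩ ⟨y, hy⟩)⟩,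
      ⟨congrArg Fin.val (h7 ⟨x, hx⟩), congrArg Fin.val (h8 ⟨x, hx⟩)⟩,
      ⟨fun hh => congrArg Fin.val ((h9 ⟨x, hx⟩ ⟨y, hy⟩ ⟨z, hz⟩).1 (Fin.ext hh)),
        fun hh => congrArg Fin.val ((h9 ⟨x, hx⟩ ⟨y, hy⟩ ⟨z, hz⟩).2 (Fin.ext hh))⟩⟩

theorem pp_heyL : PrimrecPred HeyL := by
  unfold HeyL
  refine pp_ball_lt (by fun_prop) (pp_ball_lt (by fun_prop) (pp_ball_lt (by fun_prop) ?_))
  refine PrimrecPred.and (PrimrecPred.and (pp_eq (by fun_prop) (by fun_prop))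
      (pp_eq (by fun_prop) (by fun_prop)))
    (PrimrecPred.and (PrimrecPred.and (pp_eq (by fun_prop) (by fun_prop))
      (pp_eq (by fun_prop) (by fun_prop)))
    (PrimrecPred.and (PrimrecPred.and (pp_eq (by fun_prop) (by fun_prop))
      (pp_eq (by fun_prop) (by fun_prop)))
    (PrimrecPred.and (PrimrecPred.and (pp_eq (by fun_prop) (by fun_prop))
      (pp_eq (by fun_prop) (by fun_prop)))
    (PrimrecPred.and
      (pp_imp (pp_eq (by fun_prop) (by fun_prop)) (pp_eq (by fun_prop) (by fun_prop)))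
      (pp_imp (pp_eq (by fun_prop) (by fun_prop)) (pp_eq (by fun_prop) (by fun_prop)))))))

/-- The property is decidable (in fact primitive recursive). -/
theorem main : PrimrecPred (fun c : Code => c.alg.IsHeyting ∧ Primitive c.alg.Q) :=
  (pp_heyL.and pp_condL).of_eq fun c => by
    rw [isHeyting_iff, primitive_iff, heyL_iff]

theorem main_computable : ComputablePred (fun c : Code => c.alg.IsHeyting ∧ Primitive c.alg.Q) := by
  obtain ⟨i, h⟩ := main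
  exact ⟨i, h.to_comp⟩

end Pool.Agent.H334R5.Hey
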